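import Mathlib
import Pool.Agent.H984R2.TV
import Pool.Agent.H984R2.PottsF

set_option autoImplicit false

/-!
# The censoring inequality fails for the Potts model, for every number of colours `q ≥ 3`

We build, for every `q ≥ 3`, a graph on five vertices, an inverse temperature `β > 0`, a sequence
of seven single-site heat-bath updates and a censoring of it (the sixth update is skipped) such
that, started from the all-green configuration, the censored dynamics is strictly closer to the
Potts measure in total variation than the uncensored dynamics.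
-/

namespace Pool.Agent.Results.MP_82263f_pr.PottsCensoring

open Finset

/-- Total variation distance: the largest value of `|μ(A) - ν(A)|` over all sets `A` of
configurations. -/
noncomputable def tv {Ω : Type} [Fintype Ω] (μ ν : Ω → ℝ) : ℝ :=
  ⨆ A : Finset Ω, |∑ a ∈ A, μ a - ∑ a ∈ A, ν a|

section General

variable {n q : ℕ}

open Classical in
/-- The number of edges of `G` (pairs `i < j` of adjacent vertices) whose two ends have the
same colour. -/
noncomputable def mono (G : SimpleGraph (Fin n)) (σ : Fin n → Fin q) : ℕ :=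
  (Finset.univ.filter fun p : Fin n × Fin n => p.1 < p.2 ∧ G.Adj p.1 p.2 ∧ σ p.1 = σ p.2).card

/-- The unnormalised Potts weight `exp (β #{monochromatic edges})`. -/
noncomputable def weight (G : SimpleGraph (Fin n)) (β : ℝ) (σ : Fin n → Fin q) : ℝ :=
  Real.exp (β * (mono G σ : ℝ))

/-- The Potts measure. -/
noncomputable def potts (G : SimpleGraph (Fin n)) (β : ℝ) (σ : Fin n → Fin q) : ℝ :=
  weight G β σ / ∑ τ : Fin n → Fin q, weight G β τ

open Classical in
/-- The heat-bath kernel at site `i`: all spins off `i` are kept, and the spin at `i` is resampled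
from its conditional law under the Potts measure given the others. -/
noncomputable def heatBath (G : SimpleGraph (Fin n)) (β : ℝ) (i : Fin n)
    (σ τ : Fin n → Fin q) : ℝ :=
  if ∀ j, j ≠ i → τ j = σ j then
    potts G β τ / ∑ c : Fin q, potts G β (Function.update σ i c)
  else 0

/-- The law `μ P_i` after one update at site `i`. -/
noncomputable def step (G : SimpleGraph (Fin n)) (β : ℝ) (μ : (Fin n → Fin q) → ℝ) (i : Fin n) :
    (Fin n → Fin q) → ℝ :=
  fun τ => ∑ σ, μ σ * heatBath G β i σ τ

open Classical in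
/-- The point mass at the configuration which is equal to `g` everywhere. -/
noncomputable def allGreen (g : Fin q) : (Fin n → Fin q) → ℝ :=
  fun σ => if σ = (fun _ => g) then 1 else 0

/-- The law `δ_g P_{v₁} P_{v₂} ⋯ P_{v_T}` of the heat-bath dynamics started from all green, after
the updates at the sites of the list `v`. -/
noncomputable def law (G : SimpleGraph (Fin n)) (β : ℝ) (g : Fin q) (v : List (Fin n)) :
    (Fin n → Fin q) → ℝ :=
  v.foldl (step G β) (allGreen g)

theorem weight_pos (G : SimpleGraph (Fin n)) (β : ℝ) (σ : Fin n → Fin q) : 0 < weight G β σ :=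
  Real.exp_pos _

theorem Z_pos (G : SimpleGraph (Fin n)) (β : ℝ) (σ : Fin n → Fin q) :
    0 < ∑ τ : Fin n → Fin q, weight G β τ :=
  Finset.sum_pos (fun τ _ => weight_pos G β τ) ⟨σ, Finset.mem_univ σ⟩

theorem heatBath_eq (G : SimpleGraph (Fin n)) (β : ℝ) (i : Fin n) (σ τ : Fin n → Fin q) :
    heatBath G β i σ τ = if ∀ j, j ≠ i → τ j = σ j then
      weight G β τ / ∑ c : Fin q, weight G β (Function.update σ i c) else 0 := by
  unfold heatBath
  have hZ := (Z_pos G β σ).ne'
  split_ifs
  · unfold potts
    rw [← Finset.sum_div, div_div_div_cancel_right₀ hZ]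
  · rfl

theorem sum_update (i : Fin n) (τ : Fin n → Fin q) (f : (Fin n → Fin q) → ℝ) :
    (∑ σ, if ∀ j, j ≠ i → τ j = σ j then f σ else 0) =
      ∑ c : Fin q, f (Function.update τ i c) := by
  classical
  rw [← Finset.sum_filter]
  have : (Finset.univ.filter fun σ : Fin n → Fin q => ∀ j, j ≠ i → τ j = σ j) =
      Finset.univ.image (fun c => Function.update τ i c) := by
    ext σ
    simp only [Finset.mem_filter, Finset.mem_univ, true_and, Finset.mem_image]
    constructor
    · intro h
      refine ⟨σ i, ?_⟩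
      funext j
      by_cases hj : j = i
      · subst hj; simp
      · rw [Function.update_of_ne hj, h j hj]
    · rintro ⟨c, rfl⟩ j hj
      rw [Function.update_of_ne hj]
  rw [this, Finset.sum_image]
  intro c _ d _ h
  exact Function.update_injective τ i h

theorem step_apply (G : SimpleGraph (Fin n)) (β : ℝ) (μ : (Fin n → Fin q) → ℝ) (i : Fin n)
    (τ : Fin n → Fin q) :
    step G β μ i τ = (∑ c : Fin q, μ (Function.update τ i c)) *
      (weight G β τ / ∑ c : Fin q, weight G β (Function.update τ i c)) := by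
  unfold step
  have h1 : ∀ σ, μ σ * heatBath G β i σ τ = if ∀ j, j ≠ i → τ j = σ j then
      μ σ * (weight G β τ / ∑ c : Fin q, weight G β (Function.update τ i c)) else 0 := by
    intro σ
    rw [heatBath_eq]
    by_cases h : ∀ j, j ≠ i → τ j = σ j
    · rw [if_pos h, if_pos h]
      have : ∀ c, Function.update σ i c = Function.update τ i c := by
        intro c
        funext j
        by_cases hj : j = i
        · subst hj; simp
        · rw [Function.update_of_ne hj, Function.update_of_ne hj, h j hj]
      simp_rw [this]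
    · rw [if_neg h, if_neg h, mul_zero]
  simp_rw [h1]
  rw [sum_update i τ (fun σ => μ σ * (weight G β τ /
    ∑ c : Fin q, weight G β (Function.update τ i c))), Finset.sum_mul]

theorem heatBath_sum (G : SimpleGraph (Fin n)) (β : ℝ) (i : Fin n) (σ : Fin n → Fin q) :
    ∑ τ, heatBath G β i σ τ = 1 := by
  have h1 : ∀ τ, heatBath G β i σ τ = if ∀ j, j ≠ i → σ j = τ j then
      weight G β τ / ∑ c : Fin q, weight G β (Function.update σ i c) else 0 := by
    intro τ
    rw [heatBath_eq]
    have : (∀ j, j ≠ i → τ j = σ j) ↔ (∀ j, j ≠ i → σ j = τ j) :=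
      forall_congr' fun j => forall_congr' fun _ => eq_comm
    simp only [this]
  simp_rw [h1]
  rw [sum_update i σ (fun τ => weight G β τ /
    ∑ c : Fin q, weight G β (Function.update σ i c)), ← Finset.sum_div]
  apply div_self
  exact (Finset.sum_pos (fun c _ => weight_pos G β _) ⟨σ i, Finset.mem_univ _⟩).ne'

theorem step_sum (G : SimpleGraph (Fin n)) (β : ℝ) (μ : (Fin n → Fin q) → ℝ) (i : Fin n) :
    ∑ τ, step G β μ i τ = ∑ σ, μ σ := by
  unfold step
  rw [Finset.sum_comm]
  simp_rw [← Finset.mul_sum, heatBath_sum, mul_one]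

theorem foldl_sum (G : SimpleGraph (Fin n)) (β : ℝ) (v : List (Fin n)) :
    ∀ μ : (Fin n → Fin q) → ℝ, ∑ τ, v.foldl (step G β) μ τ = ∑ σ, μ σ := by
  induction v with
  | nil => intro μ; rfl
  | cons i v ih => intro μ; rw [List.foldl_cons, ih, step_sum]

theorem law_sum (G : SimpleGraph (Fin n)) (β : ℝ) (g : Fin q) (v : List (Fin n)) :
    ∑ τ, law G β g v τ = 1 := by
  unfold law
  rw [foldl_sum]
  unfold allGreen
  rw [Finset.sum_ite_eq' Finset.univ (fun _ => g) (fun _ => (1 : ℝ)), if_pos (Finset.mem_univ _)]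

theorem potts_sum (G : SimpleGraph (Fin n)) (β : ℝ) (g : Fin q) :
    ∑ τ : Fin n → Fin q, potts G β τ = 1 := by
  unfold potts
  rw [← Finset.sum_div]
  exact div_self (Z_pos G β fun _ => g).ne'

end General

section Example

open Pool.Agent.H984R2 (tv_eq)
open Pool.Agent.H984R2.Potts

/-- The graph on five vertices with edges `01, 02, 03, 04, 12, 14, 23`. -/
def G5 : SimpleGraph (Fin 5) :=
  SimpleGraph.fromRel fun i j => (i, j) ∈
    [((0 : Fin 5), (1 : Fin 5)), (0, 2), (0, 3), (0, 4), (1, 2), (1, 4), (2, 3)]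

variable {q : ℕ}

theorem mono_eq (a b m c d : Fin q) :
    (mono G5 ![a, b, m, c, d] : ℝ) = (if a = b then 1 else 0) + (if a = m then 1 else 0) +
      (if a = c then 1 else 0) + (if a = d then 1 else 0) + (if b = m then 1 else 0) +
      (if b = d then 1 else 0) + (if m = c then 1 else 0) := by
  classical
  unfold mono
  rw [Finset.card_filter, ← Finset.univ_product_univ, Finset.sum_product]
  simp only [Fin.sum_univ_five]
  simp [G5, SimpleGraph.fromRel_adj]
  ring

theorem weight_eq {x : ℝ} (hx : 0 < x) (a b m c d : Fin q) :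
    weight G5 (Real.log x) ![a, b, m, c, d] =
      e x a b * e x a m * e x a c * e x a d * e x b m * e x b d * e x m c := by
  unfold weight
  rw [mono_eq]
  have h : ∀ (p : Prop) [Decidable p],
      Real.exp (Real.log x * (if p then 1 else 0)) = if p then x else 1 := by
    intro p _
    split_ifs
    · rw [mul_one, Real.exp_log hx]
    · rw [mul_zero, Real.exp_zero]
  simp only [mul_add, Real.exp_add, h]
  rfl

/-! ### one-site updates in coordinates -/

theorem upd0 (a b m c d u : Fin q) :
    Function.update ![a, b, m, c, d] 0 u = ![u, b, m, c, d] := by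
  funext j; fin_cases j <;> rfl

theorem upd1 (a b m c d u : Fin q) :
    Function.update ![a, b, m, c, d] 1 u = ![a, u, m, c, d] := by
  funext j; fin_cases j <;> rfl

theorem upd2 (a b m c d u : Fin q) :
    Function.update ![a, b, m, c, d] 2 u = ![a, b, u, c, d] := by
  funext j; fin_cases j <;> rfl

theorem upd3 (a b m c d u : Fin q) :
    Function.update ![a, b, m, c, d] 3 u = ![a, b, m, u, d] := by
  funext j; fin_cases j <;> rfl

theorem step0 {x : ℝ} (hx : 1 ≤ x) (μ : (Fin 5 → Fin q) → ℝ) (a b m c d : Fin q) :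
    step G5 (Real.log x) μ 0 ![a, b, m, c, d] = (∑ u, μ ![u, b, m, c, d]) *
      (e x b a * e x m a * e x c a * e x d a / Z4 x b m c d) := by
  have hx0 : 0 < x := by linarith
  rw [step_apply]
  simp only [upd0, weight_eq hx0]
  congr 1
  have h1 : ∑ u, e x u b * e x u m * e x u c * e x u d * e x b m * e x b d * e x m c =
      (e x b m * e x b d * e x m c) * Z4 x b m c d := by
    unfold Z4
    rw [Finset.mul_sum]
    refine Finset.sum_congr rfl fun u _ => ?_
    rw [e_comm x u b, e_comm x u m, e_comm x u c, e_comm x u d]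
    ring
  rw [h1, e_comm x a b, e_comm x a m, e_comm x a c, e_comm x a d]
  have h2 : e x b m * e x b d * e x m c ≠ 0 := by
    have := e_pos hx b m; have := e_pos hx b d; have := e_pos hx m c
    positivity
  rw [← mul_div_mul_left _ (Z4 x b m c d) h2]
  ring_nf

theorem step1 {x : ℝ} (hx : 1 ≤ x) (μ : (Fin 5 → Fin q) → ℝ) (a b m c d : Fin q) :
    step G5 (Real.log x) μ 1 ![a, b, m, c, d] = (∑ u, μ ![a, u, m, c, d]) *
      (e x a b * e x m b * e x d b / Z3 x a m d) := by
  have hx0 : 0 < x := by linarith
  rw [step_apply]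
  simp only [upd1, weight_eq hx0]
  congr 1
  have h1 : ∑ u, e x a u * e x a m * e x a c * e x a d * e x u m * e x u d * e x m c =
      (e x a m * e x a c * e x a d * e x m c) * Z3 x a m d := by
    unfold Z3
    rw [Finset.mul_sum]
    refine Finset.sum_congr rfl fun u _ => ?_
    rw [e_comm x u m, e_comm x u d]
    ring
  rw [h1, e_comm x b m, e_comm x b d]
  have h2 : e x a m * e x a c * e x a d * e x m c ≠ 0 := by
    have := e_pos hx a m; have := e_pos hx a c; have := e_pos hx a d; have := e_pos hx m c
    positivity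
  rw [← mul_div_mul_left _ (Z3 x a m d) h2]
  ring_nf

theorem step2 {x : ℝ} (hx : 1 ≤ x) (μ : (Fin 5 → Fin q) → ℝ) (a b m c d : Fin q) :
    step G5 (Real.log x) μ 2 ![a, b, m, c, d] = (∑ u, μ ![a, b, u, c, d]) *
      (e x a m * e x b m * e x c m / Z3 x a b c) := by
  have hx0 : 0 < x := by linarith
  rw [step_apply]
  simp only [upd2, weight_eq hx0]
  congr 1
  have h1 : ∑ u, e x a b * e x a u * e x a c * e x a d * e x b u * e x b d * e x u c =
      (e x a b * e x a c * e x a d * e x b d) * Z3 x a b c := by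
    unfold Z3
    rw [Finset.mul_sum]
    refine Finset.sum_congr rfl fun u _ => ?_
    rw [e_comm x u c]
    ring
  rw [h1, e_comm x m c]
  have h2 : e x a b * e x a c * e x a d * e x b d ≠ 0 := by
    have := e_pos hx a b; have := e_pos hx a c; have := e_pos hx a d; have := e_pos hx b d
    positivity
  rw [← mul_div_mul_left _ (Z3 x a b c) h2]
  ring_nf

theorem step3 {x : ℝ} (hx : 1 ≤ x) (μ : (Fin 5 → Fin q) → ℝ) (a b m c d : Fin q) :
    step G5 (Real.log x) μ 3 ![a, b, m, c, d] = (∑ u, μ ![a, b, m, u, d]) *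
      (e x a c * e x m c / Z2 x a m) := by
  have hx0 : 0 < x := by linarith
  rw [step_apply]
  simp only [upd3, weight_eq hx0]
  congr 1
  have h1 : ∑ u, e x a b * e x a m * e x a u * e x a d * e x b m * e x b d * e x m u =
      (e x a b * e x a m * e x a d * e x b m * e x b d) * Z2 x a m := by
    unfold Z2
    rw [Finset.mul_sum]
    refine Finset.sum_congr rfl fun u _ => ?_
    ring
  rw [h1]
  have h2 : e x a b * e x a m * e x a d * e x b m * e x b d ≠ 0 := by
    have := e_pos hx a b; have := e_pos hx a m; have := e_pos hx a d; have := e_pos hx b m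
    have := e_pos hx b d
    positivity
  rw [← mul_div_mul_left _ (Z2 x a m) h2]
  ring_nf

/-! ### the laws -/

/-- indicator of green -/
noncomputable def ind (g a : Fin q) : ℝ := if a = g then 1 else 0

theorem ind_sum (g : Fin q) : ∑ u, ind g u = 1 := by
  unfold ind
  rw [Finset.sum_ite_eq' Finset.univ g, if_pos (Finset.mem_univ g)]

theorem ind_mul (g a : Fin q) (f : Fin q → ℝ) : ind g a * f a = ind g a * f g := by
  unfold ind
  split_ifs with h
  · rw [h]
  · rw [zero_mul, zero_mul]

theorem allGreen_eq (g a b m c d : Fin q) :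
    allGreen g ![a, b, m, c, d] = ind g a * ind g b * ind g m * ind g c * ind g d := by
  unfold allGreen ind
  have h : (![a, b, m, c, d] = fun _ : Fin 5 => g) ↔
      a = g ∧ b = g ∧ m = g ∧ c = g ∧ d = g := by
    constructor
    · intro h
      exact ⟨congrFun h 0, congrFun h 1, congrFun h 2, congrFun h 3, congrFun h 4⟩
    · rintro ⟨rfl, rfl, rfl, rfl, rfl⟩
      funext j; fin_cases j <;> rfl
  simp only [h]
  clear h
  by_cases ha : a = g <;> by_cases hb : b = g <;> by_cases hm : m = g <;>
    by_cases hc : c = g <;> by_cases hd : d = g <;> simp [ha, hb, hm, hc, hd]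

section Laws

variable {x : ℝ} (hx : 1 ≤ x)
include hx

theorem law1 (g a b m c d : Fin q) :
    law G5 (Real.log x) g [3] ![a, b, m, c, d] =
      ind g a * ind g b * ind g m * ind g d * (e x g c * e x g c / Z2 x g g) := by
  have h0 : law G5 (Real.log x) g [3] = step G5 (Real.log x) (allGreen g) 3 := rfl
  rw [h0, step3 hx]
  simp_rw [allGreen_eq]
  have h1 : ∑ u, ind g a * ind g b * ind g m * ind g u * ind g d =
      ind g a * ind g b * ind g m * ind g d := by
    have : ∀ u, ind g a * ind g b * ind g m * ind g u * ind g d =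
      (ind g a * ind g b * ind g m * ind g d) * ind g u := fun u => by ring
    simp_rw [this]
    rw [← Finset.mul_sum, ind_sum, mul_one]
  rw [h1]
  calc ind g a * ind g b * ind g m * ind g d * (e x a c * e x m c / Z2 x a m)
      = (ind g b * ind g m * ind g d) * (ind g a * (e x a c * e x m c / Z2 x a m)) := by ring
    _ = (ind g b * ind g m * ind g d) * (ind g a * (e x g c * e x m c / Z2 x g m)) := by
        rw [ind_mul g a (fun a => e x a c * e x m c / Z2 x a m)]
    _ = (ind g a * ind g b * ind g d) * (ind g m * (e x g c * e x m c / Z2 x g m)) := by ring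
    _ = (ind g a * ind g b * ind g d) * (ind g m * (e x g c * e x g c / Z2 x g g)) := by
        rw [ind_mul g m (fun m => e x g c * e x m c / Z2 x g m)]
    _ = _ := by ring

theorem law2 (g a b m c d : Fin q) :
    law G5 (Real.log x) g [3, 2] ![a, b, m, c, d] =
      ind g a * ind g b * ind g d * ((e x g c * e x g c / Z2 x g g) *
        (e x g m * e x g m * e x c m / Z3 x g g c)) := by
  have h0 : law G5 (Real.log x) g [3, 2] =
    step G5 (Real.log x) (law G5 (Real.log x) g [3]) 2 := rfl
  rw [h0, step2 hx]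
  simp_rw [law1 hx]
  have h1 : ∑ u, ind g a * ind g b * ind g u * ind g d * (e x g c * e x g c / Z2 x g g) =
      ind g a * ind g b * ind g d * (e x g c * e x g c / Z2 x g g) := by
    have : ∀ u, ind g a * ind g b * ind g u * ind g d * (e x g c * e x g c / Z2 x g g) =
      (ind g a * ind g b * ind g d * (e x g c * e x g c / Z2 x g g)) * ind g u :=
        fun u => by ring
    simp_rw [this]
    rw [← Finset.mul_sum, ind_sum, mul_one]
  rw [h1]
  calc ind g a * ind g b * ind g d * (e x g c * e x g c / Z2 x g g) *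
        (e x a m * e x b m * e x c m / Z3 x a b c)
      = (ind g b * ind g d * (e x g c * e x g c / Z2 x g g)) *
        (ind g a * (e x a m * e x b m * e x c m / Z3 x a b c)) := by ring
    _ = (ind g b * ind g d * (e x g c * e x g c / Z2 x g g)) *
        (ind g a * (e x g m * e x b m * e x c m / Z3 x g b c)) := by
        rw [ind_mul g a (fun a => e x a m * e x b m * e x c m / Z3 x a b c)]
    _ = (ind g a * ind g d * (e x g c * e x g c / Z2 x g g)) *
        (ind g b * (e x g m * e x b m * e x c m / Z3 x g b c)) := by ring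
    _ = (ind g a * ind g d * (e x g c * e x g c / Z2 x g g)) *
        (ind g b * (e x g m * e x g m * e x c m / Z3 x g g c)) := by
        rw [ind_mul g b (fun b => e x g m * e x b m * e x c m / Z3 x g b c)]
    _ = _ := by ring

theorem law3 (g a b m c d : Fin q) :
    law G5 (Real.log x) g [3, 2, 3] ![a, b, m, c, d] =
      ind g a * ind g b * ind g d * (P x g m * K3 x g m c) := by
  have h0 : law G5 (Real.log x) g [3, 2, 3] =
    step G5 (Real.log x) (law G5 (Real.log x) g [3, 2]) 3 := rfl
  rw [h0, step3 hx]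
  simp_rw [law2 hx]
  rw [← Finset.mul_sum]
  change ind g a * ind g b * ind g d * P x g m * (e x a c * e x m c / Z2 x a m) = _
  calc ind g a * ind g b * ind g d * P x g m * (e x a c * e x m c / Z2 x a m)
      = (ind g b * ind g d * P x g m) * (ind g a * (e x a c * e x m c / Z2 x a m)) := by ring
    _ = (ind g b * ind g d * P x g m) * (ind g a * (e x g c * e x m c / Z2 x g m)) := by
        rw [ind_mul g a (fun a => e x a c * e x m c / Z2 x a m)]
    _ = _ := by unfold K3; ring

theorem law4 (g a b m c d : Fin q) :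
    law G5 (Real.log x) g [3, 2, 3, 0] ![a, b, m, c, d] =
      ind g b * ind g d * (P x g m * K3 x g m c * K0 x g m c a) := by
  have h0 : law G5 (Real.log x) g [3, 2, 3, 0] =
    step G5 (Real.log x) (law G5 (Real.log x) g [3, 2, 3]) 0 := rfl
  rw [h0, step0 hx]
  simp_rw [law3 hx]
  have h1 : ∑ u, ind g u * ind g b * ind g d * (P x g m * K3 x g m c) =
      ind g b * ind g d * (P x g m * K3 x g m c) := by
    have : ∀ u, ind g u * ind g b * ind g d * (P x g m * K3 x g m c) =
      (ind g b * ind g d * (P x g m * K3 x g m c)) * ind g u := fun u => by ring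
    simp_rw [this]
    rw [← Finset.mul_sum, ind_sum, mul_one]
  rw [h1]
  calc ind g b * ind g d * (P x g m * K3 x g m c) *
        (e x b a * e x m a * e x c a * e x d a / Z4 x b m c d)
      = (ind g d * (P x g m * K3 x g m c)) *
        (ind g b * (e x b a * e x m a * e x c a * e x d a / Z4 x b m c d)) := by ring
    _ = (ind g d * (P x g m * K3 x g m c)) *
        (ind g b * (e x g a * e x m a * e x c a * e x d a / Z4 x g m c d)) := by
        rw [ind_mul g b (fun b => e x b a * e x m a * e x c a * e x d a / Z4 x b m c d)]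
    _ = (ind g b * (P x g m * K3 x g m c)) *
        (ind g d * (e x g a * e x m a * e x c a * e x d a / Z4 x g m c d)) := by ring
    _ = (ind g b * (P x g m * K3 x g m c)) *
        (ind g d * (e x g a * e x m a * e x c a * e x g a / Z4 x g m c g)) := by
        rw [ind_mul g d (fun d => e x g a * e x m a * e x c a * e x d a / Z4 x g m c d)]
    _ = _ := by unfold K0; ring

theorem law5 (g a b m c d : Fin q) :
    law G5 (Real.log x) g [3, 2, 3, 0, 1] ![a, b, m, c, d] = ind g d * nu x g a b c m := by
  have h0 : law G5 (Real.log x) g [3, 2, 3, 0, 1] =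
    step G5 (Real.log x) (law G5 (Real.log x) g [3, 2, 3, 0]) 1 := rfl
  rw [h0, step1 hx]
  simp_rw [law4 hx]
  have h1 : ∑ u, ind g u * ind g d * (P x g m * K3 x g m c * K0 x g m c a) =
      ind g d * (P x g m * K3 x g m c * K0 x g m c a) := by
    have : ∀ u, ind g u * ind g d * (P x g m * K3 x g m c * K0 x g m c a) =
      (ind g d * (P x g m * K3 x g m c * K0 x g m c a)) * ind g u := fun u => by ring
    simp_rw [this]
    rw [← Finset.mul_sum, ind_sum, mul_one]
  rw [h1]
  calc ind g d * (P x g m * K3 x g m c * K0 x g m c a) *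
        (e x a b * e x m b * e x d b / Z3 x a m d)
      = (P x g m * K3 x g m c * K0 x g m c a) *
        (ind g d * (e x a b * e x m b * e x d b / Z3 x a m d)) := by ring
    _ = (P x g m * K3 x g m c * K0 x g m c a) *
        (ind g d * (e x a b * e x m b * e x g b / Z3 x a m g)) := by
        rw [ind_mul g d (fun d => e x a b * e x m b * e x d b / Z3 x a m d)]
    _ = _ := by unfold nu K1; ring

/-- the censored law: the update at site `3` before the last one is skipped -/
theorem law_cens (g a b m c d : Fin q) :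
    law G5 (Real.log x) g [3, 2, 3, 0, 1, 2] ![a, b, m, c, d] =
      ind g d * (S x g a b c * (e x a m * e x b m * e x c m / Z3 x a b c)) := by
  have h0 : law G5 (Real.log x) g [3, 2, 3, 0, 1, 2] =
    step G5 (Real.log x) (law G5 (Real.log x) g [3, 2, 3, 0, 1]) 2 := rfl
  rw [h0, step2 hx]
  simp_rw [law5 hx]
  rw [← Finset.mul_sum, mul_assoc]
  rfl

/-- the uncensored law -/
theorem law_full (g a b m c d : Fin q) :
    law G5 (Real.log x) g [3, 2, 3, 0, 1, 3, 2] ![a, b, m, c, d] =
      ind g d * (F x g a b c * (e x a m * e x b m * e x c m / Z3 x a b c)) := by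
  have h0 : law G5 (Real.log x) g [3, 2, 3, 0, 1, 3, 2] =
    step G5 (Real.log x) (step G5 (Real.log x) (law G5 (Real.log x) g [3, 2, 3, 0, 1]) 3) 2 := rfl
  rw [h0, step2 hx]
  simp_rw [step3 hx, law5 hx]
  have h1 : ∑ u, (∑ v, ind g d * nu x g a b v u) * (e x a c * e x u c / Z2 x a u) =
      ind g d * F x g a b c := by
    unfold F N
    rw [Finset.mul_sum]
    refine Finset.sum_congr rfl fun u _ => ?_
    rw [← Finset.mul_sum, mul_assoc]
  rw [h1, mul_assoc]

end Laws

/-! ### sums over configurations -/

theorem sum_cons {k : ℕ} (f : (Fin (k + 1) → Fin q) → ℝ) :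
    ∑ τ, f τ = ∑ a : Fin q, ∑ τ : Fin k → Fin q, f (Matrix.vecCons a τ) := by
  rw [← (Fin.consEquiv (fun _ : Fin (k + 1) => Fin q)).sum_comp, Fintype.sum_prod_type]
  rfl

theorem sum5 (f : (Fin 5 → Fin q) → ℝ) :
    ∑ τ, f τ = ∑ a, ∑ b, ∑ c, ∑ m, ∑ d, f ![a, b, m, c, d] := by
  rw [sum_cons]
  refine Finset.sum_congr rfl fun a _ => ?_
  rw [sum_cons]
  refine Finset.sum_congr rfl fun b _ => ?_
  rw [sum_cons]
  have h : ∀ m : Fin q, ∑ τ : Fin 2 → Fin q,
      f (Matrix.vecCons a (Matrix.vecCons b (Matrix.vecCons m τ))) =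
      ∑ c, ∑ d, f ![a, b, m, c, d] := by
    intro m
    rw [sum_cons]
    refine Finset.sum_congr rfl fun c _ => ?_
    rw [sum_cons]
    refine Finset.sum_congr rfl fun d _ => ?_
    rw [Fintype.sum_unique]
    congr 1
  rw [Finset.sum_congr rfl fun m _ => h m]
  exact Finset.sum_comm

/-! ### the partition function -/

section PartitionFunction

variable {x : ℝ} (H : Hyp q x)
include H

theorem Z_lower : (q : ℝ) * x ^ 7 ≤ ∑ τ : Fin 5 → Fin q, weight G5 (Real.log x) τ := by
  classical
  have h1 : ∑ a : Fin q, weight G5 (Real.log x) ![a, a, a, a, a] = (q : ℝ) * x ^ 7 := by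
    simp_rw [weight_eq H.x0, e_self]
    rw [Finset.sum_const, Finset.card_univ, Fintype.card_fin, nsmul_eq_mul]
    ring
  rw [← h1, ← Finset.sum_image (f := fun τ => weight G5 (Real.log x) τ)
    (g := fun a : Fin q => ![a, a, a, a, a]) (s := Finset.univ)
    (fun a _ b _ h => congrFun h 0)]
  exact Finset.sum_le_sum_of_subset_of_nonneg (Finset.subset_univ _)
    fun τ _ _ => (weight_pos _ _ τ).le

theorem Z2_le (a m : Fin q) : Z2 x a m ≤ 3 * x * e x a m := by
  have h1 := H.x1
  have h2 := H.qx
  by_cases h : m = a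
  · subst h
    rw [Z2_self, e_self]
    nlinarith
  · rw [Z2_ne x h, e_ne x (Ne.symm h)]
    linarith

theorem sum_m_le (a b : Fin q) : ∑ m, e x a m ^ 2 * e x b m ≤ 2 * x ^ 2 * e x a b := by
  have h1 := H.x1
  have h2 := H.qx
  have h3 := H.x27
  by_cases h : b = a
  · subst h
    rw [split1 _ b 1 (fun u hu => by rw [e_ne x hu.symm]; norm_num), e_self]
    nlinarith [H.xk2, H.xk3]
  · rw [split2 _ a b h 1 (fun u hu hv => by rw [e_ne x hu.symm, e_ne x hv.symm]; norm_num),
      e_self, e_self, e_ne x h, e_ne x (Ne.symm h)]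
    nlinarith [H.xk2, H.xk3]

theorem Z_upper : ∑ τ : Fin 5 → Fin q, weight G5 (Real.log x) τ ≤ 36 * (q : ℝ) * x ^ 7 := by
  have hx := H.x0
  have hx1 := H.x1
  rw [sum5]
  simp_rw [weight_eq hx]
  have h0 : ∀ a b m c : Fin q, ∑ d, e x a b * e x a m * e x a c * e x a d * e x b m *
      e x b d * e x m c = (e x a b * e x a m * e x b m * Z2 x a b) * (e x a c * e x m c) := by
    intro a b m c
    unfold Z2
    rw [Finset.mul_sum, Finset.sum_mul]
    refine Finset.sum_congr rfl fun d _ => ?_
    ring
  have h1 : ∀ a b : Fin q, ∑ c, ∑ m, ∑ d, e x a b * e x a m * e x a c * e x a d * e x b m *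
      e x b d * e x m c = ∑ m, e x a b * e x a m * e x b m * Z2 x a b * Z2 x a m := by
    intro a b
    rw [Finset.sum_comm]
    refine Finset.sum_congr rfl fun m _ => ?_
    simp_rw [h0]
    rw [← Finset.mul_sum]
    rfl
  have h2 : ∀ a b : Fin q, ∑ m, e x a b * e x a m * e x b m * Z2 x a b * Z2 x a m ≤
      18 * x ^ 4 * e x a b ^ 3 := by
    intro a b
    have e1 := H.e0 a b
    calc ∑ m, e x a b * e x a m * e x b m * Z2 x a b * Z2 x a m
        ≤ ∑ m, (9 * x ^ 2 * e x a b ^ 2) * (e x a m ^ 2 * e x b m) := by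
          refine Finset.sum_le_sum fun m _ => ?_
          have e2 := H.e0 a m
          have e3 := H.e0 b m
          have e4 := H.Z2_pos a b
          have e5 := H.Z2_pos a m
          calc e x a b * e x a m * e x b m * Z2 x a b * Z2 x a m
              ≤ e x a b * e x a m * e x b m * (3 * x * e x a b) * (3 * x * e x a m) := by
                have := Z2_le H a b
                have := Z2_le H a m
                gcongr
            _ = _ := by ring
      _ = (9 * x ^ 2 * e x a b ^ 2) * ∑ m, (e x a m ^ 2 * e x b m) := by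
          rw [Finset.mul_sum]
      _ ≤ (9 * x ^ 2 * e x a b ^ 2) * (2 * x ^ 2 * e x a b) := by
          have := sum_m_le H a b
          gcongr
      _ = _ := by ring
  have h3 : ∀ a : Fin q, ∑ b, e x a b ^ 3 ≤ 2 * x ^ 3 := by
    intro a
    rw [split1 _ a 1 (fun u hu => by rw [e_ne x hu.symm]; norm_num), e_self]
    nlinarith [H.xk2, H.xk3, H.qx, H.x27]
  calc ∑ a, ∑ b, ∑ c, ∑ m, ∑ d, e x a b * e x a m * e x a c * e x a d * e x b m *
      e x b d * e x m c = ∑ a, ∑ b, ∑ m, e x a b * e x a m * e x b m * Z2 x a b * Z2 x a m :=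
        Finset.sum_congr rfl fun a _ => Finset.sum_congr rfl fun b _ => h1 a b
    _ ≤ ∑ a, ∑ b, 18 * x ^ 4 * e x a b ^ 3 :=
        Finset.sum_le_sum fun a _ => Finset.sum_le_sum fun b _ => h2 a b
    _ = ∑ a : Fin q, 18 * x ^ 4 * ∑ b, e x a b ^ 3 := by simp_rw [Finset.mul_sum]
    _ ≤ ∑ _a : Fin q, 18 * x ^ 4 * (2 * x ^ 3) := by
        refine Finset.sum_le_sum fun a _ => ?_
        have := h3 a
        gcongr
    _ = 36 * (q : ℝ) * x ^ 7 := by
        rw [Finset.sum_const, Finset.card_univ, Fintype.card_fin, nsmul_eq_mul]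
        ring

end PartitionFunction

/-! ### distance to equilibrium -/

theorem potts_eq {x : ℝ} (H : Hyp q x) (g a b m c : Fin q) :
    potts G5 (Real.log x) ![a, b, m, c, g] =
      W x (∑ τ : Fin 5 → Fin q, weight G5 (Real.log x) τ) g a b c *
        (e x a m * e x b m * e x c m / Z3 x a b c) := by
  unfold potts W
  rw [weight_eq H.x0, e_comm x m c]
  have := (H.Z3_pos a b c).ne'
  field_simp

theorem dist_eq {x : ℝ} (H : Hyp q x) (g : Fin q) (L : (Fin 5 → Fin q) → ℝ)
    (X : Fin q → Fin q → Fin q → ℝ)
    (hL : ∀ a b m c d, L ![a, b, m, c, d] =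
      ind g d * (X a b c * (e x a m * e x b m * e x c m / Z3 x a b c))) :
    ∑ τ, |L τ - potts G5 (Real.log x) τ| =
      (∑ a, ∑ b, ∑ c, |X a b c -
        W x (∑ τ : Fin 5 → Fin q, weight G5 (Real.log x) τ) g a b c|) +
      ∑ a, ∑ b, ∑ c, ∑ m, ∑ d, (1 - ind g d) * potts G5 (Real.log x) ![a, b, m, c, d] := by
  rw [sum5, ← Finset.sum_add_distrib]
  refine Finset.sum_congr rfl fun a _ => ?_
  rw [← Finset.sum_add_distrib]
  refine Finset.sum_congr rfl fun b _ => ?_
  rw [← Finset.sum_add_distrib]
  refine Finset.sum_congr rfl fun c _ => ?_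
  set w := W x (∑ τ : Fin 5 → Fin q, weight G5 (Real.log x) τ) g a b c with hw
  have h1 : |X a b c - w| = ∑ m, |X a b c - w| * (e x a m * e x b m * e x c m / Z3 x a b c) := by
    rw [← Finset.mul_sum, H.sum_kernel3, mul_one]
  rw [h1, ← Finset.sum_add_distrib]
  refine Finset.sum_congr rfl fun m _ => ?_
  have h2 : |X a b c - w| * (e x a m * e x b m * e x c m / Z3 x a b c) =
      ∑ d, ind g d * (|X a b c - w| * (e x a m * e x b m * e x c m / Z3 x a b c)) := by
    rw [← Finset.sum_mul, ind_sum, one_mul]
  rw [h2, ← Finset.sum_add_distrib]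
  refine Finset.sum_congr rfl fun d _ => ?_
  rw [hL]
  have h0 : 0 ≤ e x a m * e x b m * e x c m / Z3 x a b c := by
    have := H.e0 a m; have := H.e0 b m; have := H.e0 c m; have := H.Z3_pos a b c
    positivity
  have h3 : 0 ≤ potts G5 (Real.log x) ![a, b, m, c, d] :=
    div_nonneg (weight_pos _ _ _).le (Finset.sum_nonneg fun τ _ => (weight_pos _ _ τ).le)
  unfold ind
  by_cases hd : d = g
  · subst hd
    rw [if_pos rfl, one_mul, one_mul, sub_self, zero_mul, add_zero, potts_eq H, ← hw,
      ← sub_mul, abs_mul, abs_of_nonneg h0]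
  · rw [if_neg hd, zero_mul, zero_mul, sub_zero, one_mul, zero_add, zero_sub, abs_neg,
      abs_of_nonneg h3]

/-- the comparison in terms of `x = exp β` -/
theorem main {x : ℝ} (H : Hyp q x) (g : Fin q) :
    tv (law G5 (Real.log x) g [3, 2, 3, 0, 1, 2]) (potts G5 (Real.log x)) <
      tv (law G5 (Real.log x) g [3, 2, 3, 0, 1, 3, 2]) (potts G5 (Real.log x)) := by
  change Pool.Agent.H984R2.tv _ _ < Pool.Agent.H984R2.tv _ _
  rw [tv_eq _ _ (by rw [law_sum, potts_sum _ _ g]), tv_eq _ _ (by rw [law_sum, potts_sum _ _ g]),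
    dist_eq H g _ (S x g) (law_cens H.x1 g), dist_eq H g _ (F x g) (law_full H.x1 g)]
  have h := H.G_total (Z_lower H) (Z_upper H) g
  unfold G at h
  simp_rw [Finset.sum_sub_distrib] at h
  linarith

end Example

/-- **The censoring inequality fails for the ferromagnetic Potts model, for every `q ≥ 3`.**
There are a graph `G` on five vertices, a sequence `v` of sites and a subsequence `w` of `v` such
that, for every number of colours `q ≥ 3`, every inverse temperature `β ≥ log (1000 q ^ 3) > 0` and
every colour `g`, called green, the heat-bath dynamics started from the all-green configuration and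
censored to `w` is strictly closer in total variation to the Potts measure on `G` than the
uncensored dynamics `v`. -/
theorem result : ∃ (G : SimpleGraph (Fin 5)) (v w : List (Fin 5)), w.Sublist v ∧
    ∀ q : ℕ, 3 ≤ q → ∀ β : ℝ, Real.log (1000 * (q : ℝ) ^ 3) ≤ β → ∀ g : Fin q,
      tv (law G β g w) (potts G β) < tv (law G β g v) (potts G β) := by
  refine ⟨G5, [3, 2, 3, 0, 1, 3, 2], [3, 2, 3, 0, 1, 2], by decide, ?_⟩
  intro q hq β hβ g
  have h0 : (0 : ℝ) < 1000 * (q : ℝ) ^ 3 := by
    have : 0 < q := by omega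
    positivity
  have H : Pool.Agent.H984R2.Potts.Hyp q (Real.exp β) :=
    ⟨hq, (Real.log_le_iff_le_exp h0).mp hβ⟩
  have := main H g
  rwa [Real.log_exp] at this

end Pool.Agent.Results.MP_82263f_pr.PottsCensoring
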